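import Mathlib

set_option autoImplicit false

namespace Pool.Agent.Results.MP_390115_co.Exponential

/-- `S` (with the induced order) is a covering subset of `P`. -/
def IsCoveringSubset {P : Type} [PartialOrder P] (S : Set P) : Prop :=
  ∀ x y : S, x ⋖ y → (x : P) ⋖ (y : P)

/-- `P` contains every ordered set with at most `n` elements as a covering subset. -/
def Universal (n : ℕ) (P : Type) [PartialOrder P] : Prop :=
  ∀ (Q : Type) [Fintype Q] [PartialOrder Q], Fintype.card Q ≤ n →
    ∃ S : Set P, IsCoveringSubset S ∧ Nonempty (S ≃o Q)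

/-- The least size of an ordered set containing every ordered set with at most `n` elements as a
covering subset. -/
noncomputable def b (n : ℕ) : ℕ :=
  sInf {m | ∃ (P : Type) (_ : Fintype P) (_ : PartialOrder P), Fintype.card P = m ∧ Universal n P}

def W (n : ℕ) : Type := {p : Fin n × Finset (Fin n) // p.1 ∉ p.2}

instance (n : ℕ) : Fintype (W n) := by unfold W; infer_instance

def lt {n : ℕ} (x y : W n) : Prop :=
  x.1.1 < y.1.1 ∧ x.1.1 ∈ y.1.2 ∧ y.1.1 ∈ x.1.2 ∧ (∀ j ∈ x.1.2, j < x.1.1 → j ∈ y.1.2) ∧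
    (∀ j ∈ y.1.2, y.1.1 < j → j ∈ x.1.2)

lemma lt_tr {n : ℕ} {x y z : W n} (h : lt x y) (h' : lt y z) : lt x z := by
  obtain ⟨a1, a2, a3, a4, a5⟩ := h
  obtain ⟨b1, b2, b3, b4, b5⟩ := h'
  exact ⟨a1.trans b1, b4 _ a2 a1, a5 _ b3 b1, fun j hj hl => b4 j (a4 j hj hl) (hl.trans a1),
    fun j hj hl => a5 j (b5 j hj hl) (b1.trans hl)⟩

instance (n : ℕ) : PartialOrder (W n) where
  le x y := x = y ∨ lt x y
  lt := lt
  le_refl x := Or.inl rfl
  le_trans x y z h h' := by
    rcases h with rfl | h
    · exact h'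
    · rcases h' with rfl | h'
      · exact Or.inr h
      · exact Or.inr (lt_tr h h')
  lt_iff_le_not_ge x y := by
    constructor
    · intro h
      refine ⟨Or.inr h, ?_⟩
      rintro (rfl | h')
      · exact lt_irrefl _ h.1
      · exact lt_asymm h.1 h'.1
    · rintro ⟨rfl | h, h'⟩
      · exact absurd (Or.inl rfl) h'
      · exact h
  le_antisymm x y h h' := by
    rcases h with rfl | h
    · rfl
    · rcases h' with rfl | h'
      · rfl
      · exact absurd h.1 (lt_asymm h'.1)

lemma card_W (n : ℕ) : Fintype.card (W n) = n * 2 ^ (n - 1) := by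
  have e : W n ≃ Σ i : Fin n, {S : Finset (Fin n) // i ∉ S} :=
    Equiv.subtypeProdEquivSigmaSubtype (fun (i : Fin n) (S : Finset (Fin n)) => i ∉ S)
  rw [Fintype.card_congr e, Fintype.card_sigma]
  have : ∀ i : Fin n, Fintype.card {S : Finset (Fin n) // i ∉ S} = 2 ^ (n - 1) := by
    intro i
    rw [Fintype.card_subtype]
    have : (Finset.univ.filter (fun S : Finset (Fin n) => i ∉ S)) =
        (Finset.univ.erase i).powerset := by
      ext S
      simp [Finset.subset_erase]
    rw [this, Finset.card_powerset, Finset.card_erase_of_mem (Finset.mem_univ i)]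
    simp
  simp [this]

lemma univ_W (n : ℕ) : Universal n (W n) := by
  classical
  intro Q _ _ hQ
  obtain ⟨l, hl, hi⟩ : ∃ l : Q → Fin n, StrictMono l ∧ Function.Injective l := by
    let _ : Fintype (LinearExtension Q) := ‹Fintype Q›
    let e : Fin (Fintype.card Q) ≃o LinearExtension Q := monoEquivOfFin (LinearExtension Q) rfl
    have hi : Function.Injective
        (fun q : Q => Fin.castLE hQ (e.symm (toLinearExtension q))) := by
      intro p q h
      exact e.symm.injective (Fin.castLE_injective hQ h)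
    refine ⟨_, Monotone.strictMono_of_injective ?_ hi, hi⟩
    intro p q h
    exact (Fin.castLE_le_castLE_iff hQ).2 (e.symm.monotone (toLinearExtension.monotone h))
  let f : Q → W n := fun q =>
    ⟨(l q, (Finset.univ.filter (fun r => r < q ∨ q < r)).image l), by
      simp only [Finset.mem_image, Finset.mem_filter, Finset.mem_univ, true_and, not_exists,
        not_and]
      intro r hr h
      rw [hi h] at hr
      simp at hr⟩
  have lo : ∀ q j, j ∈ (f q).1.2 → j < l q → ∃ s, s < q ∧ l s = j := by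
    intro q j hj h
    simp only [f, Finset.mem_image, Finset.mem_filter, Finset.mem_univ, true_and] at hj
    obtain ⟨s, hs | hs, rfl⟩ := hj
    · exact ⟨s, hs, rfl⟩
    · exact absurd (hl hs) (lt_asymm h)
  have up : ∀ q j, j ∈ (f q).1.2 → l q < j → ∃ s, q < s ∧ l s = j := by
    intro q j hj h
    simp only [f, Finset.mem_image, Finset.mem_filter, Finset.mem_univ, true_and] at hj
    obtain ⟨s, hs | hs, rfl⟩ := hj
    · exact absurd (hl hs) (lt_asymm h)
    · exact ⟨s, hs, rfl⟩
  have mem : ∀ q s, s < q ∨ q < s → l s ∈ (f q).1.2 := by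
    intro q s h
    simp only [f, Finset.mem_image, Finset.mem_filter, Finset.mem_univ, true_and]
    exact ⟨s, h, rfl⟩
  have key : ∀ p q, f p < f q ↔ p < q := by
    intro p q
    constructor
    · rintro ⟨a1, a2, -⟩
      obtain ⟨s, hs, h⟩ := lo q _ a2 a1
      rwa [← hi h]
    · intro h
      refine ⟨hl h, mem q p (Or.inl h), mem p q (Or.inr h), ?_, ?_⟩
      · intro j hj hlt
        obtain ⟨s, hs, rfl⟩ := lo p j hj hlt
        exact mem q s (Or.inl (hs.trans h))
      · intro j hj hlt
        obtain ⟨s, hs, rfl⟩ := up q j hj hlt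
        exact mem p s (Or.inr (h.trans hs))
  have finj : Function.Injective f := fun p q h => hi (congrArg (fun w : W n => w.1.1) h)
  let g : Q ↪o W n := ⟨⟨f, finj⟩, by
    intro p q
    simp only [Function.Embedding.coeFn_mk, le_iff_lt_or_eq, key, finj.eq_iff]⟩
  refine ⟨Set.range g, ?_, ⟨g.orderIso.symm⟩⟩
  rintro ⟨_, p, rfl⟩ ⟨_, q, rfl⟩ h
  refine ⟨h.1, fun w h1 h2 => ?_⟩
  obtain ⟨s, hs, e1⟩ := up p _ h1.2.2.1 h1.1
  obtain ⟨s', hs', e2⟩ := lo q _ h2.2.1 h2.1
  have : s = s' := hi (e1.trans e2.symm)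
  subst this
  exact h.2 (c := ⟨g s, s, rfl⟩) ((key p s).2 hs) ((key s q).2 hs')

theorem result :
    (∀ n : ℕ, ∃ (P : Type) (_ : Fintype P) (_ : PartialOrder P),
      Fintype.card P = n * 2 ^ (n - 1) ∧ Universal n P) ∧
    (∀ n : ℕ, b n ≤ n * 2 ^ (n - 1)) ∧
    (∀ ε : ℝ, 0 < ε → ∀ᶠ n : ℕ in Filter.atTop, Real.logb 2 (b n) / n ≤ 1 + ε) := by
  have h2 : ∀ n : ℕ, b n ≤ n * 2 ^ (n - 1) := fun n =>
    Nat.sInf_le ⟨W n, inferInstance, inferInstance, card_W n, univ_W n⟩
  refine ⟨fun n => ⟨W n, inferInstance, inferInstance, card_W n, univ_W n⟩, h2, fun ε hε => ?_⟩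
  have hl : Filter.Tendsto (fun n : ℕ => Real.logb 2 n / n) Filter.atTop (nhds 0) := by
    have h1 : Filter.Tendsto (fun x : ℝ => Real.logb 2 x / x) Filter.atTop (nhds 0) := by
      have := (Real.isLittleO_logb_id_atTop (b := 2)).tendsto_div_nhds_zero
      simpa using this
    exact h1.comp tendsto_natCast_atTop_atTop
  filter_upwards [hl.eventually (ge_mem_nhds hε), Filter.eventually_ge_atTop 1] with n hn hn1
  have hn0 : (0 : ℝ) < n := by exact_mod_cast hn1
  have hb : Real.logb 2 (b n) ≤ Real.logb 2 n + n := by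
    have hlog : 0 ≤ Real.logb 2 n := Real.logb_nonneg (by norm_num) (by exact_mod_cast hn1)
    rcases Nat.eq_zero_or_pos (b n) with h0 | h0
    · rw [h0]; simp; positivity
    · have h3 : b n ≤ n * 2 ^ n :=
        (h2 n).trans (Nat.mul_le_mul_left _ (Nat.pow_le_pow_right (by norm_num) (Nat.sub_le _ _)))
      have h4 : (b n : ℝ) ≤ n * 2 ^ n := by exact_mod_cast h3
      have h5 := Real.logb_le_logb_of_le (b := 2) (by norm_num) (by exact_mod_cast h0) h4
      rw [Real.logb_mul hn0.ne' (by positivity), Real.logb_pow] at h5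
      simpa using h5
  rw [div_le_iff₀ hn0] at hn ⊢
  linarith

end Pool.Agent.Results.MP_390115_co.Exponential
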